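import Pool.Agent.helper616_TP.TP3

/-!
# Project TE (helper616): from the mean value over the coefficients to almost all coefficients
-/

set_option autoImplicit false
set_option maxHeartbeats 4000000

open Finset MeasureTheory Filter Topology

namespace Pool.Agent.helper616_TW

open TP3 (tp3R)

namespace TE2


/-- the number of the pairs of primes with `t < l 0 * p + l 1 * q ≤ t + h` -/
noncomputable def reps (l : Fin 2 → ℝ) (t h : ℝ) : ℕ :=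
  Set.ncard {x : Fin 2 → ℕ | (∀ i, (x i).Prime) ∧ t < ∑ i, l i * (x i : ℝ) ∧ ∑ i, l i * (x i : ℝ) ≤ t + h}

theorem fewbad_meas (h α β γ : ℝ) (P : ℕ) : Measurable fun l : Fin 2 → ℝ =>
    volume {t : ℝ | α ≤ t ∧ t ≤ β ∧ (tp3R 1 P l t h : ℝ) < γ} := by
  have hset : MeasurableSet {z : (Fin 2 → ℝ) × ℝ | α ≤ z.2 ∧ z.2 ≤ β ∧
      (tp3R 1 P z.1 z.2 h : ℝ) < γ} := by
    have h1 : Measurable fun z : (Fin 2 → ℝ) × ℝ => (tp3R 1 P z.1 z.2 h : ℝ) := by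
      unfold tp3R
      simp only [Finset.card_filter, Nat.cast_sum]
      refine Finset.measurable_sum _ fun x _ => ?_
      have hF : Measurable fun z : (Fin 2 → ℝ) × ℝ => F 1 z.1 x := by
        unfold F
        refine Finset.measurable_sum _ fun i _ => ?_
        exact ((measurable_pi_apply i).comp measurable_fst).mul_const _
      have hs : MeasurableSet {z : (Fin 2 → ℝ) × ℝ | (∀ i, (x i).Prime) ∧ z.2 < F 1 z.1 x ∧
          F 1 z.1 x ≤ z.2 + h} :=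
        (MeasurableSet.const _).inter ((measurableSet_lt measurable_snd hF).inter
          (measurableSet_le hF (measurable_snd.add_const h)))
      have h2 : Measurable fun z : (Fin 2 → ℝ) × ℝ =>
          (if (∀ i, (x i).Prime) ∧ z.2 < F 1 z.1 x ∧ F 1 z.1 x ≤ z.2 + h then (1 : ℕ) else 0) :=
        Measurable.ite hs measurable_const measurable_const
      exact measurable_from_top.comp h2
    exact (measurableSet_le measurable_const measurable_snd).inter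
      ((measurableSet_le measurable_snd measurable_const).inter (measurableSet_lt h1 measurable_const))
  exact measurable_measure_prodMk_left hset

theorem fewbad_bc (a b h c C : ℝ) (K : ℕ)
    (hE : ∀ᶠ P : ℕ in atTop, ∫⁻ l in cube 2 a b, volume {t : ℝ | a / 8 * P ≤ t ∧ t ≤ a * P / 2 ∧
      (tp3R 1 P l t h : ℝ) < c * P / (Real.log P) ^ 2} ≤ ENNReal.ofReal (C * (Real.log P) ^ K * (P : ℝ) ^ ((2 : ℝ) / 5))) :
    ∀ᵐ l : Fin 2 → ℝ, l ∈ cube 2 a b → ∀ᶠ j : ℕ in atTop,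
      volume {t : ℝ | a / 8 * ((2 ^ j : ℕ) : ℝ) ≤ t ∧ t ≤ a * ((2 ^ j : ℕ) : ℝ) / 2 ∧
        (tp3R 1 (2 ^ j) l t h : ℝ) < c * ((2 ^ j : ℕ) : ℝ) / (Real.log ((2 ^ j : ℕ) : ℝ)) ^ 2} ≤
      ENNReal.ofReal ((Real.log ((2 ^ j : ℕ) : ℝ)) ^ (K + 2) * ((2 ^ j : ℕ) : ℝ) ^ ((2 : ℝ) / 5)) := by
  have hcm : MeasurableSet (cube 2 a b) := by
    have : cube 2 a b = Set.pi Set.univ fun _ => Set.Icc a b := by
      ext l
      simp only [cube, Set.mem_setOf_eq, Set.mem_pi, Set.mem_univ, forall_true_left]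
    rw [this]
    exact MeasurableSet.univ_pi fun _ => measurableSet_Icc
  rw [← ae_restrict_iff' hcm]
  obtain ⟨P0, hP0⟩ := eventually_atTop.1 hE
  set μ : Measure (Fin 2 → ℝ) := volume.restrict (cube 2 a b) with hμ
  set v : ℕ → (Fin 2 → ℝ) → ENNReal := fun P l => volume {t : ℝ | a / 8 * (P : ℝ) ≤ t ∧
    t ≤ a * (P : ℝ) / 2 ∧ (tp3R 1 P l t h : ℝ) < c * P / (Real.log P) ^ 2} with hv
  set ε : ℕ → ENNReal := fun P =>
    ENNReal.ofReal ((Real.log P) ^ (K + 2) * (P : ℝ) ^ ((2 : ℝ) / 5)) with hε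
  have hvm : ∀ P, Measurable (v P) := fun P => fewbad_meas h _ _ _ P
  set j1 : ℕ := P0 + 1 with hj1
  have hlog2 : 0 < Real.log 2 := Real.log_pos one_lt_two
  have hbound : ∀ j : ℕ, μ {l | ε (2 ^ (j + j1)) ≤ v (2 ^ (j + j1)) l} ≤
      ENNReal.ofReal (|C| / (Real.log 2) ^ 2 * (1 / ((j + 1 : ℕ) : ℝ) ^ 2)) := by
    intro j
    set P : ℕ := 2 ^ (j + j1) with hP
    have hPP0 : P0 ≤ P := by
      have h1 : j + j1 < 2 ^ (j + j1) := Nat.lt_two_pow_self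
      omega
    have hP2 : (1 : ℝ) < P := by
      have h1 : j + j1 < 2 ^ (j + j1) := Nat.lt_two_pow_self
      have h2 : 1 < P := by omega
      exact_mod_cast h2
    have hL : 0 < Real.log P := Real.log_pos hP2
    have hQ : 0 < (P : ℝ) ^ ((2 : ℝ) / 5) := Real.rpow_pos_of_pos (by linarith) _
    have hεpos : 0 < (Real.log P) ^ (K + 2) * (P : ℝ) ^ ((2 : ℝ) / 5) := by positivity
    have h1 : μ {l | ε P ≤ v P l} ≤ (∫⁻ l, v P l ∂μ) / ε P :=
      meas_ge_le_lintegral_div (hvm P).aemeasurable (ENNReal.ofReal_pos.2 hεpos).ne'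
        ENNReal.ofReal_ne_top
    refine h1.trans ?_
    have h2 : ∫⁻ l, v P l ∂μ ≤ ENNReal.ofReal (|C| * (Real.log P) ^ K * (P : ℝ) ^ ((2 : ℝ) / 5)) := by
      refine (hP0 P hPP0).trans (ENNReal.ofReal_le_ofReal ?_)
      have : C ≤ |C| := le_abs_self C
      gcongr
    refine (ENNReal.div_le_div_right h2 _).trans ?_
    rw [hε]
    simp only
    rw [← ENNReal.ofReal_div_of_pos hεpos]
    refine ENNReal.ofReal_le_ofReal ?_
    have h3 : |C| * (Real.log P) ^ K * (P : ℝ) ^ ((2 : ℝ) / 5) /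
        ((Real.log P) ^ (K + 2) * (P : ℝ) ^ ((2 : ℝ) / 5)) = |C| / (Real.log P) ^ 2 := by
      rw [pow_add]
      field_simp
    rw [h3]
    have h4 : Real.log P = ((j + j1 : ℕ) : ℝ) * Real.log 2 := by
      rw [hP, Nat.cast_pow, Real.log_pow]
      norm_num
    have h5 : ((j + 1 : ℕ) : ℝ) * Real.log 2 ≤ Real.log P := by
      rw [h4]
      refine mul_le_mul_of_nonneg_right ?_ hlog2.le
      exact_mod_cast (by omega : j + 1 ≤ j + j1)
    have h6 : 0 < ((j + 1 : ℕ) : ℝ) * Real.log 2 := by positivity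
    calc |C| / (Real.log P) ^ 2 ≤ |C| / (((j + 1 : ℕ) : ℝ) * Real.log 2) ^ 2 := by
          gcongr
      _ = |C| / (Real.log 2) ^ 2 * (1 / ((j + 1 : ℕ) : ℝ) ^ 2) := by
          rw [mul_pow]
          field_simp
  have hsum : ∑' j : ℕ, μ {l | ε (2 ^ (j + j1)) ≤ v (2 ^ (j + j1)) l} ≠ ⊤ := by
    have h1 : Summable fun j : ℕ => |C| / (Real.log 2) ^ 2 * (1 / ((j + 1 : ℕ) : ℝ) ^ 2) := by
      refine Summable.mul_left _ ?_
      exact (summable_nat_add_iff 1).2 (Real.summable_one_div_nat_pow.2 one_lt_two)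
    exact ne_top_of_le_ne_top h1.tsum_ofReal_ne_top (ENNReal.tsum_le_tsum hbound)
  filter_upwards [ae_eventually_notMem hsum] with l hl
  obtain ⟨N, hN⟩ := eventually_atTop.1 hl
  refine eventually_atTop.2 ⟨N + j1, fun j hj => ?_⟩
  have h1 := hN (j - j1) (by omega)
  rw [Nat.sub_add_cancel (by omega)] at h1
  exact (not_le.1 h1).le

theorem fewbad_le {a b : ℝ} (ha : 0 < a) {l : Fin 2 → ℝ} (hl : l ∈ cube 2 a b) (P : ℕ) (t h : ℝ) :
    tp3R 1 P l t h ≤ reps l t h := by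
  unfold tp3R reps
  rw [← Set.ncard_coe_finset]
  refine Set.ncard_le_ncard ?_ ?_
  · intro x hx
    rw [Finset.mem_coe, Finset.mem_filter] at hx
    obtain ⟨-, h1, h2, h3⟩ := hx
    unfold F at h2 h3
    simp only [pow_one] at h2 h3
    exact ⟨h1, h2, h3⟩
  · refine (Set.finite_Iic (fun _ : Fin 2 => ⌊(t + h) / a⌋₊)).subset ?_
    rintro x ⟨-, -, h3⟩
    intro i
    refine Nat.le_floor ?_
    rw [le_div_iff₀ ha]
    have h4 : l i * (x i : ℝ) ≤ ∑ i, l i * (x i : ℝ) :=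
      Finset.single_le_sum (f := fun i => l i * (x i : ℝ))
        (fun i _ => mul_nonneg (ha.le.trans (hl i).1) (Nat.cast_nonneg _)) (Finset.mem_univ i)
    have h5 : a * (x i : ℝ) ≤ l i * (x i : ℝ) :=
      mul_le_mul_of_nonneg_right (hl i).1 (Nat.cast_nonneg _)
    linarith

theorem fewbad_find {a b h c : ℝ} (ha : 0 < a) (hc : 0 < c) {l : Fin 2 → ℝ} (hl : l ∈ cube 2 a b)
    {j0 : ℕ} (hj0 : 16 / a ^ 2 ≤ (2 : ℝ) ^ j0) {t : ℝ} (ht2 : 2 ≤ t) (ht : a * 2 ^ j0 / 2 < t)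
    (hr : (reps l t h : ℝ) < c / (2 * a) * t / (Real.log t) ^ 2) :
    ∃ j : ℕ, j0 ≤ j ∧ (2 : ℝ) ^ j ≤ 4 * t / a ∧ a / 8 * ((2 ^ j : ℕ) : ℝ) ≤ t ∧
      t ≤ a * ((2 ^ j : ℕ) : ℝ) / 2 ∧
      (tp3R 1 (2 ^ j) l t h : ℝ) < c * ((2 ^ j : ℕ) : ℝ) / (Real.log ((2 ^ j : ℕ) : ℝ)) ^ 2 := by
  have hex : ∃ n : ℕ, t ≤ a * 2 ^ n / 2 := by
    obtain ⟨n, hn⟩ := pow_unbounded_of_one_lt (2 * t / a) (one_lt_two (α := ℝ))
    refine ⟨n, ?_⟩
    rw [div_lt_iff₀ ha] at hn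
    linarith
  classical
  set j := Nat.find hex with hj
  have h1 : t ≤ a * 2 ^ j / 2 := Nat.find_spec hex
  have h2 : j0 < j := by
    by_contra hcon
    push Not at hcon
    have h3 : (2 : ℝ) ^ j ≤ 2 ^ j0 := pow_le_pow_right₀ one_le_two hcon
    have h4 : a * 2 ^ j / 2 ≤ a * 2 ^ j0 / 2 := by
      have := mul_le_mul_of_nonneg_left h3 ha.le
      linarith
    linarith
  have h3 : ¬ t ≤ a * 2 ^ (j - 1) / 2 := Nat.find_min hex (by omega)
  have h4 : (2 : ℝ) ^ j = 2 * 2 ^ (j - 1) := by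
    rw [← pow_succ']
    congr 1
    omega
  have h5 : a * 2 ^ j / 4 < t := by
    rw [h4]
    push Not at h3
    linarith
  have hcast : ((2 ^ j : ℕ) : ℝ) = (2 : ℝ) ^ j := by push_cast; rfl
  have hP1 : (1 : ℝ) < 2 ^ j := one_lt_pow₀ one_lt_two (by omega)
  have hPpos : (0 : ℝ) < 2 ^ j := by linarith
  have hge : 16 / a ^ 2 ≤ (2 : ℝ) ^ j := hj0.trans (pow_le_pow_right₀ one_le_two h2.le)
  refine ⟨j, h2.le, ?_, ?_, ?_, ?_⟩
  · rw [le_div_iff₀ ha]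
    linarith
  · rw [hcast]
    have : 0 < a * 2 ^ j := mul_pos ha hPpos
    linarith
  · rw [hcast]
    exact h1
  · rw [hcast]
    have hlogP : 0 < Real.log ((2 : ℝ) ^ j) := Real.log_pos hP1
    have hlogt : 0 < Real.log t := Real.log_pos (by linarith)
    have hlog : Real.log ((2 : ℝ) ^ j) ≤ 2 * Real.log t := by
      have h6 : (2 : ℝ) ^ j ≤ t ^ 2 := by
        rw [div_le_iff₀ (by positivity)] at hge
        have h7 : 0 < a * 2 ^ j / 4 := by positivity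
        have h8 : (a * 2 ^ j / 4) ^ 2 ≤ t ^ 2 := pow_le_pow_left₀ h7.le h5.le 2
        have h9 : (2 : ℝ) ^ j ≤ (a * 2 ^ j / 4) ^ 2 := by
          have : (a * 2 ^ j / 4) ^ 2 = 2 ^ j * ((2 : ℝ) ^ j * a ^ 2) / 16 := by ring
          rw [this]
          nlinarith
        linarith
      calc Real.log ((2 : ℝ) ^ j) ≤ Real.log (t ^ 2) := Real.log_le_log hPpos h6
        _ = 2 * Real.log t := by rw [Real.log_pow]; norm_num
    have h6 : (tp3R 1 (2 ^ j) l t h : ℝ) ≤ (reps l t h : ℝ) := by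
      exact_mod_cast fewbad_le ha hl _ t h
    refine lt_of_le_of_lt h6 (hr.trans_le ?_)
    have h7 : (Real.log ((2 : ℝ) ^ j)) ^ 2 ≤ 4 * (Real.log t) ^ 2 := by
      have := pow_le_pow_left₀ hlogP.le hlog 2
      calc _ ≤ _ := this
        _ = _ := by ring
    rw [div_le_div_iff₀ (by positivity) (by positivity)]
    calc c / (2 * a) * t * (Real.log ((2 : ℝ) ^ j)) ^ 2
        ≤ c / (2 * a) * (a * 2 ^ j / 2) * (4 * (Real.log t) ^ 2) := by gcongr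
      _ = c * 2 ^ j * (Real.log t) ^ 2 := by
        field_simp
        ring

theorem fewbad_sum (K : ℕ) (a : ℝ) (ha : 0 < a) (T0 : ℝ) (hT0 : 0 ≤ T0) :
    ∃ C' : ℝ, ∀ T : ℝ, 2 ≤ T → ∀ J : ℕ, (2 : ℝ) ^ J ≤ (4 / a + 1) * T →
      T0 + ∑ j ∈ Finset.range (J + 1),
        (Real.log ((2 ^ j : ℕ) : ℝ)) ^ (K + 2) * ((2 ^ j : ℕ) : ℝ) ^ ((2 : ℝ) / 5) ≤
        C' * (Real.log T) ^ (K + 2) * T ^ ((2 : ℝ) / 5) := by
  set ρ : ℝ := (2 : ℝ) ^ ((2 : ℝ) / 5) with hρ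
  have hρ1 : 1 < ρ := Real.one_lt_rpow one_lt_two (by norm_num)
  have hlog2 : 0 < Real.log 2 := Real.log_pos one_lt_two
  set A1 : ℝ := 4 / a + 1 with hA1
  have hA1' : 1 ≤ A1 := by
    have : 0 < 4 / a := by positivity
    linarith
  have hlA : 0 ≤ Real.log A1 := Real.log_nonneg hA1'
  set M : ℝ := Real.log A1 / Real.log 2 + 1 with hM
  have hM0 : 0 < M := by positivity
  refine ⟨T0 / (Real.log 2) ^ (K + 2) + M ^ (K + 2) * (ρ / (ρ - 1)) * A1 ^ ((2 : ℝ) / 5), ?_⟩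
  intro T hT J hJ
  have hlT : Real.log 2 ≤ Real.log T := Real.log_le_log two_pos hT
  have hlT0 : 0 < Real.log T := hlog2.trans_le hlT
  have hT1 : 1 ≤ T ^ ((2 : ℝ) / 5) := Real.one_le_rpow (by linarith) (by norm_num)
  have hcast : ∀ j : ℕ, ((2 ^ j : ℕ) : ℝ) = (2 : ℝ) ^ j := fun j => by push_cast; rfl
  have hQ : ∀ j : ℕ, ((2 : ℝ) ^ j) ^ ((2 : ℝ) / 5) = ρ ^ j := by
    intro j
    rw [hρ, ← Real.rpow_natCast, ← Real.rpow_natCast, ← Real.rpow_mul two_pos.le,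
      ← Real.rpow_mul two_pos.le, mul_comm]
  -- the logarithm
  have hLJ : Real.log ((2 : ℝ) ^ J) ≤ M * Real.log T := by
    calc Real.log ((2 : ℝ) ^ J) ≤ Real.log (A1 * T) := Real.log_le_log (by positivity) hJ
      _ = Real.log A1 + Real.log T := Real.log_mul (by linarith) (by linarith)
      _ ≤ M * Real.log T := by
        rw [hM, add_mul, one_mul]
        have h1 : Real.log A1 = Real.log A1 / Real.log 2 * Real.log 2 := by
          field_simp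
        have h2 : Real.log A1 / Real.log 2 * Real.log 2 ≤ Real.log A1 / Real.log 2 * Real.log T :=
          mul_le_mul_of_nonneg_left hlT (by positivity)
        linarith
  have hQJ : ρ ^ J ≤ A1 ^ ((2 : ℝ) / 5) * T ^ ((2 : ℝ) / 5) := by
    rw [← hQ, ← Real.mul_rpow (by linarith) (by linarith)]
    exact Real.rpow_le_rpow (by positivity) hJ (by norm_num)
  have hsum1 : ∑ j ∈ Finset.range (J + 1),
      (Real.log ((2 ^ j : ℕ) : ℝ)) ^ (K + 2) * ((2 ^ j : ℕ) : ℝ) ^ ((2 : ℝ) / 5) ≤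
      ∑ j ∈ Finset.range (J + 1), (M * Real.log T) ^ (K + 2) * ρ ^ j := by
    refine Finset.sum_le_sum fun j hj => ?_
    rw [Finset.mem_range] at hj
    rw [hcast, hQ]
    have h1 : Real.log ((2 : ℝ) ^ j) ≤ Real.log ((2 : ℝ) ^ J) :=
      Real.log_le_log (by positivity) (pow_le_pow_right₀ one_le_two (by omega))
    have h2 : 0 ≤ Real.log ((2 : ℝ) ^ j) := Real.log_nonneg (one_le_pow₀ one_le_two)
    have h3 := pow_le_pow_left₀ h2 (h1.trans hLJ) (K + 2)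
    exact mul_le_mul_of_nonneg_right h3 (by positivity)
  have hgeo : ∑ j ∈ Finset.range (J + 1), ρ ^ j ≤ ρ / (ρ - 1) * ρ ^ J := by
    rw [geom_sum_eq hρ1.ne', div_mul_eq_mul_div, ← pow_succ']
    refine div_le_div_of_nonneg_right ?_ (by linarith)
    linarith
  rw [← Finset.mul_sum] at hsum1
  have hML : 0 ≤ (M * Real.log T) ^ (K + 2) := by positivity
  have h5 : (M * Real.log T) ^ (K + 2) * ∑ j ∈ Finset.range (J + 1), ρ ^ j ≤
      (M * Real.log T) ^ (K + 2) * (ρ / (ρ - 1) * (A1 ^ ((2 : ℝ) / 5) * T ^ ((2 : ℝ) / 5))) := by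
    refine mul_le_mul_of_nonneg_left (hgeo.trans ?_) hML
    refine mul_le_mul_of_nonneg_left hQJ ?_
    have : 0 < ρ - 1 := by linarith
    positivity
  have h6 : T0 ≤ T0 / (Real.log 2) ^ (K + 2) * (Real.log T) ^ (K + 2) * T ^ ((2 : ℝ) / 5) := by
    have h7 : T0 = T0 / (Real.log 2) ^ (K + 2) * (Real.log 2) ^ (K + 2) * 1 := by
      field_simp
    have h8 : (Real.log 2) ^ (K + 2) ≤ (Real.log T) ^ (K + 2) := pow_le_pow_left₀ hlog2.le hlT _
    calc T0 = T0 / (Real.log 2) ^ (K + 2) * (Real.log 2) ^ (K + 2) * 1 := h7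
      _ ≤ _ := by gcongr
  calc T0 + ∑ j ∈ Finset.range (J + 1),
        (Real.log ((2 ^ j : ℕ) : ℝ)) ^ (K + 2) * ((2 ^ j : ℕ) : ℝ) ^ ((2 : ℝ) / 5)
      ≤ T0 / (Real.log 2) ^ (K + 2) * (Real.log T) ^ (K + 2) * T ^ ((2 : ℝ) / 5) +
        (M * Real.log T) ^ (K + 2) * (ρ / (ρ - 1) * (A1 ^ ((2 : ℝ) / 5) * T ^ ((2 : ℝ) / 5))) := by
        linarith
    _ = _ := by
      rw [mul_pow]
      ring

theorem fewbad_det (a b h c : ℝ) (K : ℕ) (ha : 0 < a) (hc : 0 < c) (l : Fin 2 → ℝ)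
    (hl : l ∈ cube 2 a b)
    (hev : ∀ᶠ j : ℕ in atTop,
      volume {t : ℝ | a / 8 * ((2 ^ j : ℕ) : ℝ) ≤ t ∧ t ≤ a * ((2 ^ j : ℕ) : ℝ) / 2 ∧
        (tp3R 1 (2 ^ j) l t h : ℝ) < c * ((2 ^ j : ℕ) : ℝ) / (Real.log ((2 ^ j : ℕ) : ℝ)) ^ 2} ≤
      ENNReal.ofReal ((Real.log ((2 ^ j : ℕ) : ℝ)) ^ (K + 2) * ((2 ^ j : ℕ) : ℝ) ^ ((2 : ℝ) / 5))) :
    ∃ c' C' : ℝ, 0 < c' ∧ ∀ T : ℝ, 2 ≤ T →
      volume {t : ℝ | 2 ≤ t ∧ t ≤ T ∧ (reps l t h : ℝ) < c' * t / (Real.log t) ^ 2} ≤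
        ENNReal.ofReal (C' * (Real.log T) ^ (K + 2) * T ^ ((2 : ℝ) / 5)) := by
  obtain ⟨N, hN⟩ := eventually_atTop.1 hev
  obtain ⟨n1, hn1⟩ := pow_unbounded_of_one_lt (16 / a ^ 2) (one_lt_two (α := ℝ))
  set j0 : ℕ := max N n1 with hj0
  have hj0' : 16 / a ^ 2 ≤ (2 : ℝ) ^ j0 :=
    hn1.le.trans (pow_le_pow_right₀ one_le_two (le_max_right _ _))
  set T0 : ℝ := a * 2 ^ j0 / 2 with hT0
  have hT0' : 0 ≤ T0 := by positivity
  obtain ⟨C', hC'⟩ := fewbad_sum K a ha T0 hT0'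
  refine ⟨c / (2 * a), C', by positivity, fun T hT => ?_⟩
  set X : ℝ := (4 / a + 1) * T with hX
  have hX1 : 1 ≤ X := by
    have h1 : 0 < 4 / a := by positivity
    nlinarith
  set J : ℕ := Nat.log 2 ⌊X⌋₊ with hJ
  have hfl : ⌊X⌋₊ ≠ 0 := by
    have : 1 ≤ ⌊X⌋₊ := Nat.le_floor (by exact_mod_cast hX1)
    omega
  have hJX : (2 : ℝ) ^ J ≤ X := by
    have h1 : 2 ^ J ≤ ⌊X⌋₊ := Nat.pow_log_le_self 2 hfl
    have h2 : ((2 ^ J : ℕ) : ℝ) ≤ (⌊X⌋₊ : ℝ) := by exact_mod_cast h1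
    have h3 : (⌊X⌋₊ : ℝ) ≤ X := Nat.floor_le (by linarith)
    push_cast at h2
    linarith
  set Sj : ℕ → Set ℝ := fun j => {t : ℝ | a / 8 * ((2 ^ j : ℕ) : ℝ) ≤ t ∧
    t ≤ a * ((2 ^ j : ℕ) : ℝ) / 2 ∧
      (tp3R 1 (2 ^ j) l t h : ℝ) < c * ((2 ^ j : ℕ) : ℝ) / (Real.log ((2 ^ j : ℕ) : ℝ)) ^ 2} with hSj
  have hsub : {t : ℝ | 2 ≤ t ∧ t ≤ T ∧ (reps l t h : ℝ) < c / (2 * a) * t / (Real.log t) ^ 2} ⊆
      Set.Icc 0 T0 ∪ ⋃ j ∈ (Finset.range (J + 1)).filter (fun j => j0 ≤ j), Sj j := by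
    rintro t ⟨ht2, htT, hr⟩
    rcases le_or_gt t T0 with h1 | h1
    · exact Or.inl ⟨by linarith, h1⟩
    · right
      obtain ⟨j, h2, h3, h4, h5, h6⟩ := fewbad_find ha hc hl hj0' ht2 h1 hr
      refine Set.mem_biUnion (x := j) ?_ ⟨h4, h5, h6⟩
      rw [Finset.mem_coe, Finset.mem_filter, Finset.mem_range]
      refine ⟨?_, h2⟩
      have h7 : 2 ^ j ≤ ⌊X⌋₊ := by
        refine Nat.le_floor ?_
        push_cast
        refine h3.trans ?_
        rw [hX, add_mul, one_mul]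
        have h8 : 4 * t / a ≤ 4 / a * T := by
          rw [div_mul_eq_mul_div]
          gcongr
        linarith
      have h8 : j ≤ J := Nat.le_log_of_pow_le (by norm_num) h7
      omega
  refine (measure_mono hsub).trans ((measure_union_le _ _).trans ?_)
  have hv1 : volume (Set.Icc 0 T0) = ENNReal.ofReal T0 := by
    rw [Real.volume_Icc, sub_zero]
  have hv2 : volume (⋃ j ∈ (Finset.range (J + 1)).filter (fun j => j0 ≤ j), Sj j) ≤
      ENNReal.ofReal (∑ j ∈ Finset.range (J + 1),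
        (Real.log ((2 ^ j : ℕ) : ℝ)) ^ (K + 2) * ((2 ^ j : ℕ) : ℝ) ^ ((2 : ℝ) / 5)) := by
    refine (measure_biUnion_finset_le _ _).trans ?_
    rw [ENNReal.ofReal_sum_of_nonneg]
    · refine (Finset.sum_le_sum fun j hj => ?_).trans
        (Finset.sum_le_sum_of_subset (Finset.filter_subset _ _))
      rw [Finset.mem_filter] at hj
      exact hN j (le_trans (le_max_left _ _) hj.2)
    · intro j _
      have h2 : 0 ≤ Real.log ((2 ^ j : ℕ) : ℝ) := Real.log_natCast_nonneg _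
      positivity
  rw [hv1]
  refine (add_le_add_right hv2 _).trans ?_
  rw [← ENNReal.ofReal_add hT0']
  · exact ENNReal.ofReal_le_ofReal (hC' T hT J hJX)
  · refine Finset.sum_nonneg fun j _ => ?_
    have h2 : 0 ≤ Real.log ((2 ^ j : ℕ) : ℝ) := Real.log_natCast_nonneg _
    positivity

theorem fewbad (a b h c C : ℝ) (K : ℕ) (ha : 0 < a) (hab : a < b) (hh : 0 < h) (hc : 0 < c)
    (hE : ∀ᶠ P : ℕ in atTop, ∫⁻ l in cube 2 a b, volume {t : ℝ | a / 8 * P ≤ t ∧ t ≤ a * P / 2 ∧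
      (tp3R 1 P l t h : ℝ) < c * P / (Real.log P) ^ 2} ≤ ENNReal.ofReal (C * (Real.log P) ^ K * (P : ℝ) ^ ((2 : ℝ) / 5))) :
    ∀ᵐ l : Fin 2 → ℝ, l ∈ cube 2 a b → ∃ c' C' : ℝ, 0 < c' ∧ ∀ T : ℝ, 2 ≤ T →
      volume {t : ℝ | 2 ≤ t ∧ t ≤ T ∧ (reps l t h : ℝ) < c' * t / (Real.log t) ^ 2} ≤
        ENNReal.ofReal (C' * (Real.log T) ^ (K + 2) * T ^ ((2 : ℝ) / 5)) := by
  filter_upwards [fewbad_bc a b h c C K hE] with l hl hlc
  exact fewbad_det a b h c K ha hc l hlc (hl hlc)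

end TE2

end Pool.Agent.helper616_TW
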