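import Pool.Agent.helper616_TE.TE1
import Pool.Agent.helper616_TE.TE2
import Pool.Agent.helper616_TZ.Main

/-!
# Project TE (helper616): few representations as a sum of two primes, for almost all real coefficients
-/

set_option autoImplicit false

open Finset MeasureTheory Filter Topology
open Pool.Agent.helper616_TS (t_Pl)

namespace Pool.Agent.helper616_TW

open TP3 (tp3R)
open TE2 (reps)

/-- more representations in a longer interval -/
theorem reps_mono {l : Fin 2 → ℝ} (hl : ∀ i, 0 < l i) (t h h' : ℝ) (hh : h ≤ h') : reps l t h ≤ reps l t h' := by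
  unfold TE2.reps
  refine Set.ncard_le_ncard ?_ ?_
  · rintro x ⟨h1, h2, h3⟩
    exact ⟨h1, h2, h3.trans (by linarith)⟩
  · set m := min (l 0) (l 1) with hm
    have hm0 : 0 < m := lt_min (hl 0) (hl 1)
    have hmi : ∀ i : Fin 2, m ≤ l i := by
      intro i
      fin_cases i
      · exact min_le_left _ _
      · exact min_le_right _ _
    refine (Set.finite_Iic (fun _ : Fin 2 => ⌊(t + h') / m⌋₊)).subset ?_
    rintro x ⟨-, -, h3⟩
    intro i
    refine Nat.le_floor ?_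
    rw [le_div_iff₀ hm0]
    have h4 : l i * (x i : ℝ) ≤ ∑ i, l i * (x i : ℝ) :=
      Finset.single_le_sum (f := fun i => l i * (x i : ℝ))
        (fun i _ => mul_nonneg (hl i).le (Nat.cast_nonneg _)) (Finset.mem_univ i)
    have h5 : m * (x i : ℝ) ≤ l i * (x i : ℝ) :=
      mul_le_mul_of_nonneg_right (hmi i) (Nat.cast_nonneg _)
    linarith

theorem fewE (a b h : ℝ) (ha : 0 < a) (hab : a < b) (hh : 0 < h) :
    ∃ (c C : ℝ) (K : ℕ), 0 < c ∧ ∀ᶠ P : ℕ in atTop, ∫⁻ l in cube 2 a b, volume {t : ℝ | a / 8 * P ≤ t ∧ t ≤ a * P / 2 ∧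
      (tp3R 1 P l t h : ℝ) < c * P / (Real.log P) ^ 2} ≤ ENNReal.ofReal (C * (Real.log P) ^ K * (P : ℝ) ^ ((2 : ℝ) / 5)) := by
  obtain ⟨c, C, K, hc, h1⟩ := TE1.few_at 1 le_rfl (3 / 5) (by norm_num) (by norm_num) a b (a / 8) h hh
    (TR7.var_at t_Pl 1 le_rfl (3 / 5) (by norm_num) (by norm_num) a b h ha hab hh)
    (TZ4.lowerV hoh Pool.Agent.helper616_RP.t_VAR 1 le_rfl a b (a / 8) ha hab (by positivity) (by linarith))
  refine ⟨c, C, K, hc, ?_⟩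
  filter_upwards [h1] with P hP
  refine le_trans (le_of_eq ?_) (hP.trans (le_of_eq ?_))
  · refine lintegral_congr fun l => ?_
    congr 1
    unfold TE1.badC
    simp only [pow_one, Nat.reduceAdd]
  · congr 3
    push_cast
    norm_num

theorem fewall : ∀ᵐ l : Fin 2 → ℝ, (∀ i, 0 < l i) → ∀ h : ℝ, 0 < h → ∃ (c C : ℝ) (K : ℕ), 0 < c ∧ ∀ T : ℝ, 2 ≤ T →
      volume {t : ℝ | 2 ≤ t ∧ t ≤ T ∧ (reps l t h : ℝ) < c * t / (Real.log t) ^ 2} ≤
        ENNReal.ofReal (C * (Real.log T) ^ K * T ^ ((2 : ℝ) / 5)) := by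
  have h0 : ∀ᵐ l : Fin 2 → ℝ, (∀ i, 0 < l i) → ∀ n : ℕ, ∃ (c C : ℝ) (K : ℕ), 0 < c ∧ ∀ T : ℝ, 2 ≤ T →
      volume {t : ℝ | 2 ≤ t ∧ t ≤ T ∧ (reps l t (1 / ((n : ℝ) + 1)) : ℝ) < c * t / (Real.log t) ^ 2} ≤
        ENNReal.ofReal (C * (Real.log T) ^ K * T ^ ((2 : ℝ) / 5)) := by
    refine TW12.allpos _ _ fun a b ha hab => ?_
    have h1 : ∀ᵐ l : Fin 2 → ℝ, ∀ n : ℕ, l ∈ cube 2 a b → ∃ (c C : ℝ) (K : ℕ), 0 < c ∧ ∀ T : ℝ, 2 ≤ T →
      volume {t : ℝ | 2 ≤ t ∧ t ≤ T ∧ (reps l t (1 / ((n : ℝ) + 1)) : ℝ) < c * t / (Real.log t) ^ 2} ≤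
        ENNReal.ofReal (C * (Real.log T) ^ K * T ^ ((2 : ℝ) / 5)) := by
      rw [ae_all_iff]
      intro n
      have hn : (0 : ℝ) < 1 / ((n : ℝ) + 1) := by positivity
      obtain ⟨c, C, K, hc, hE⟩ := fewE a b (1 / ((n : ℝ) + 1)) ha hab hn
      filter_upwards [TE2.fewbad a b (1 / ((n : ℝ) + 1)) c C K ha hab hn hc hE] with l hl hcube
      obtain ⟨c', C', hc', hT⟩ := hl hcube
      exact ⟨c', C', K + 2, hc', hT⟩
    filter_upwards [h1] with l hl hcube n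
    exact hl n hcube
  filter_upwards [h0] with l hl hpos h hh
  obtain ⟨n, hn⟩ := exists_nat_one_div_lt hh
  obtain ⟨c, C, K, hc, hT⟩ := hl hpos n
  refine ⟨c, C, K, hc, fun T hT2 => (measure_mono ?_).trans (hT T hT2)⟩
  rintro t ⟨h1, h2, h3⟩
  refine ⟨h1, h2, lt_of_le_of_lt ?_ h3⟩
  exact_mod_cast reps_mono hpos t _ h hn.le

end Pool.Agent.helper616_TW
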