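import Pool.Agent.helper616_TR.TR7

/-!
# Project TE (helper616): few representations as a sum of primes, with real coefficients
-/

set_option autoImplicit false
set_option maxHeartbeats 4000000

open Finset MeasureTheory Filter Topology
open Pool.Agent.helper616_TS (e LogBdd)

namespace Pool.Agent.helper616_TW

open TP3

namespace TE1

/-- the `t` with few representations by primes -/
def badC {s : ℕ} (k P : ℕ) (a τ h c : ℝ) (l : Fin s → ℝ) : Set ℝ :=
  {t | τ * (P : ℝ) ^ k ≤ t ∧ t ≤ a * (P : ℝ) ^ k / 2 ∧ (tp3R k P l t h : ℝ) < c * P / (Real.log P) ^ (k + 1)}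

theorem badC_meas {s : ℕ} (k P : ℕ) (a τ h c : ℝ) (l : Fin s → ℝ) : MeasurableSet (badC k P a τ h c l) := by
  classical
  have hR : Measurable (fun t : ℝ => (tp3R k P l t h : ℝ)) := by
    have e1 : (fun t : ℝ => (tp3R k P l t h : ℝ)) =
        fun t => ∑ x ∈ (box s P).filter (fun x => ∀ i, (x i).Prime), (Set.Ico (F k l x - h) (F k l x)).indicator (fun _ => (1 : ℝ)) t := by
      funext t
      unfold tp3R
      rw [← Finset.filter_filter, Finset.card_filter]
      push_cast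
      refine Finset.sum_congr rfl fun x _ => ?_
      rw [Set.indicator_apply]
      congr 1
      simp only [Set.mem_Ico, eq_iff_iff]
      constructor
      · rintro ⟨h1, h2⟩; exact ⟨by linarith, h1⟩
      · rintro ⟨h1, h2⟩; exact ⟨h2, by linarith⟩
    rw [e1]
    exact Finset.measurable_sum _ fun x _ => measurable_const.indicator measurableSet_Ico
  unfold badC
  exact measurableSet_Ici.inter (measurableSet_Iic.inter (measurableSet_lt hR measurable_const))

theorem few_at (k : ℕ) (hk : 1 ≤ k) (δ : ℝ) (hδ0 : 0 < δ) (hδ1 : δ < 1) (a b τ h : ℝ) (hh : 0 < h)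
    (hvar : ∃ (C : ℝ) (K : ℕ), 0 < C ∧ ∀ P : ℕ, 2 ≤ P → ∀ H : ℝ, H = (P : ℝ) ^ ((k : ℝ) - δ) → 1 ≤ H → h ≤ H → H ≤ (P : ℝ) ^ k →
      ∫⁻ l in cube (k + 1) a b, ∫⁻ t : ℝ, ‖∑ x ∈ box (k + 1) P, (W (fun _ => pr) x : ℂ) * win h H (F k l x - t)‖ₑ ^ 2 ≤
        ENNReal.ofReal (C * (Real.log P) ^ K * ((P : ℝ) ^ 2 * H)))
    (hlow' : ∃ c : ℝ, 0 < c ∧ ∀ᶠ P : ℕ in atTop, ∀ l ∈ cube (k + 1) a b, ∀ t : ℝ,
      τ * (P : ℝ) ^ k ≤ t → t ≤ a * (P : ℝ) ^ k / 2 →
      c * (P : ℝ) ^ ((k : ℝ) + 1 - δ) / (Real.log P) ^ (k + 1) ≤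
        (((box (k + 1) P).filter (fun x => (∀ i, (x i).Prime) ∧ t < F k l x ∧ F k l x ≤ t + (P : ℝ) ^ ((k : ℝ) - δ))).card : ℝ)) :
    ∃ (c C : ℝ) (K : ℕ), 0 < c ∧ ∀ᶠ P : ℕ in atTop, ∫⁻ l in cube (k + 1) a b, volume (badC k P a τ h c l) ≤
      ENNReal.ofReal (C * (Real.log P) ^ K * (P : ℝ) ^ ((k : ℝ) - δ)) := by
  obtain ⟨C, K, hC, hvar⟩ := hvar
  obtain ⟨c, hc, hlow⟩ := hlow'
  have hk0 : (0 : ℝ) < k := by exact_mod_cast (by omega : 0 < k)
  have hk2 : (1 : ℝ) ≤ k := by exact_mod_cast hk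
  have hkδ : 0 < (k : ℝ) - δ := by linarith
  refine ⟨c * h / 2, C * 2 / (c / 2) ^ 2, K + (2 * k + 2), by positivity, ?_⟩
  have hH1 : ∀ᶠ P : ℕ in atTop, max 1 h ≤ (P : ℝ) ^ ((k : ℝ) - δ) :=
    ((tendsto_rpow_atTop hkδ).comp tendsto_natCast_atTop_atTop).eventually_ge_atTop _
  filter_upwards [hlow, eventually_ge_atTop 2, hH1] with P hP hP2 hP3
  have hPr : (2 : ℝ) ≤ P := by exact_mod_cast hP2
  have hP0 : (0 : ℝ) < P := by linarith
  have hP1 : (1 : ℝ) ≤ P := by linarith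
  have hlog : 0 < Real.log P := Real.log_pos (by linarith)
  set L : ℝ := Real.log P with hLdef
  set H : ℝ := (P : ℝ) ^ ((k : ℝ) - δ) with hHdef
  have hH0 : 0 < H := Real.rpow_pos_of_pos hP0 _
  have hHP : H ≤ (P : ℝ) ^ k := by
    rw [← Real.rpow_natCast, hHdef]
    exact Real.rpow_le_rpow_of_exponent_le hP1 (by linarith)
  have hv := hvar P hP2 H hHdef ((le_max_left _ _).trans hP3) ((le_max_right _ _).trans hP3) hHP
  set q : ℝ := (c / 2) * P / L ^ (k + 1) with hq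
  have hq0 : 0 < q := by positivity
  -- the lower bound of the inner integral
  have hin : ∀ l ∈ cube (k + 1) a b, ENNReal.ofReal (q ^ 2) * volume (badC k P a τ h (c * h / 2) l) ≤
      ∫⁻ t : ℝ, ‖∑ x ∈ box (k + 1) P, (W (fun _ => pr) x : ℂ) * win h H (F k l x - t)‖ₑ ^ 2 := by
    intro l hl
    calc ENNReal.ofReal (q ^ 2) * volume (badC k P a τ h (c * h / 2) l)
        = ∫⁻ _ in badC k P a τ h (c * h / 2) l, ENNReal.ofReal (q ^ 2) := by
          rw [setLIntegral_const]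
      _ ≤ ∫⁻ t in badC k P a τ h (c * h / 2) l,
            ‖∑ x ∈ box (k + 1) P, (W (fun _ => pr) x : ℂ) * win h H (F k l x - t)‖ₑ ^ 2 := by
          refine setLIntegral_mono' (badC_meas k P a τ h (c * h / 2) l) fun t ht => ?_
          have hR0 : (tp3R k P l t h : ℝ) < c * h / 2 * P / L ^ (k + 1) := ht.2.2
          have hR1 : c * (P : ℝ) ^ ((k : ℝ) + 1 - δ) / L ^ (k + 1) ≤ (tp3R k P l t H : ℝ) :=
            hP l hl t ht.1 ht.2.1
          rw [tp3_sum_win]
          rw [← ofReal_norm, ← ENNReal.ofReal_pow (norm_nonneg _)]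
          refine ENNReal.ofReal_le_ofReal ?_
          refine pow_le_pow_left₀ hq0.le ?_ 2
          rw [Complex.norm_real, Real.norm_eq_abs, abs_sub_comm]
          refine le_trans ?_ (le_abs_self _)
          have hA : (tp3R k P l t h : ℝ) / h ≤ q := by
            rw [div_le_iff₀ hh]
            have e0 : q * h = c * h / 2 * P / L ^ (k + 1) := by
              rw [hq]
              ring
            rw [e0]
            exact hR0.le
          have hB : 2 * q ≤ (tp3R k P l t H : ℝ) / H := by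
            rw [le_div_iff₀ hH0]
            refine le_trans (le_of_eq ?_) hR1
            have e1 : (P : ℝ) ^ ((k : ℝ) + 1 - δ) = P * H := by
              rw [hHdef, show (k : ℝ) + 1 - δ = 1 + ((k : ℝ) - δ) by ring, Real.rpow_add hP0,
                Real.rpow_one]
            rw [e1, hq]
            ring
          linarith
      _ ≤ _ := setLIntegral_le_lintegral _ _
  have hout : ENNReal.ofReal (q ^ 2) * ∫⁻ l in cube (k + 1) a b, volume (badC k P a τ h (c * h / 2) l) ≤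
      ENNReal.ofReal (C * L ^ K * ((P : ℝ) ^ 2 * H)) := by
    rw [← lintegral_const_mul' _ _ ENNReal.ofReal_ne_top]
    exact le_trans (setLIntegral_mono' (tp3_cube_meas _ _ _) hin) hv
  have hfin : C * L ^ K * ((P : ℝ) ^ 2 * H) ≤
      q ^ 2 * (C * 2 / (c / 2) ^ 2 * L ^ (K + (2 * k + 2)) * H) := by
    have e2 : q ^ 2 * (C * 2 / (c / 2) ^ 2 * L ^ (K + (2 * k + 2)) * H) =
        C * L ^ K * ((P : ℝ) ^ 2 * H + (P : ℝ) ^ 2 * H) := by
      have e3 : L ^ (K + (2 * k + 2)) = L ^ K * (L ^ (k + 1)) ^ 2 := by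
        rw [pow_add, ← pow_mul]
        congr 2
        ring
      rw [e3, hq]
      field_simp
      ring
    rw [e2]
    refine mul_le_mul_of_nonneg_left ?_ (by positivity)
    have : 0 ≤ (P : ℝ) ^ 2 * H := by positivity
    linarith
  have h6 := hout.trans (ENNReal.ofReal_le_ofReal hfin)
  rw [ENNReal.ofReal_mul (by positivity)] at h6
  have h7 : ENNReal.ofReal (q ^ 2) ≠ 0 := by
    rw [Ne, ENNReal.ofReal_eq_zero, not_le]; positivity
  exact (ENNReal.mul_le_mul_iff_right h7 ENNReal.ofReal_ne_top).1 h6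

end TE1

end Pool.Agent.helper616_TW
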